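import Pool.Agent.K3h16.MI.Stm

/-! MI brick TPARAM for helper16: `T ∘ γ` is a parametrization of `T(M)` -/

set_option autoImplicit false

open MeasureTheory Set Filter Topology
open scoped ContDiff

namespace Pool.Agent.K3h68.MI

open Pool.Agent.K3h16.MI

theorem t_TPARAM : S_CONF2 → S_TPARAM := by
  intro hC2 m n M γ T ρ U hMc hMU hC hγ
  have hmem : ∀ u, γ u ∈ M := by
    intro u
    obtain ⟨V, _, hV⟩ := hγ.open_range
    have : γ u ∈ range γ := ⟨u, rfl⟩
    rw [hV] at this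
    exact this.1
  have hmemU : ∀ u, γ u ∈ U := fun u => hMU (hmem u)
  have hTinj : InjOn T U := by
    intro x hx y hy hxy
    have h := hC.dist x hx y hy
    rw [hxy, sub_self, norm_zero] at h
    have h1 : ρ x * ρ y ≠ 0 := (mul_pos (hC.pos x hx) (hC.pos y hy)).ne'
    have h2 : ‖x - y‖ ^ 2 = 0 := by
      have : ρ x * ρ y * ‖x - y‖ ^ 2 = 0 := by rw [← h]; norm_num
      exact (mul_eq_zero.1 this).resolve_left h1
    have h3 : ‖x - y‖ = 0 := pow_eq_zero_iff (two_ne_zero) |>.1 h2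
    exact sub_eq_zero.1 (norm_eq_zero.1 h3)
  have hTcont : ContinuousOn T M := hC.smoothT.continuousOn.mono hMU
  have hTdiff : ∀ x ∈ U, DifferentiableAt ℝ T x := fun x hx =>
    (hC.smoothT.differentiableOn (by simp)).differentiableAt (hC.isOpen.mem_nhds hx)
  have hγdiff : ∀ u, DifferentiableAt ℝ γ u := fun u =>
    hγ.smooth.differentiable (by simp) u
  have hfd : ∀ u, fderiv ℝ (T ∘ γ) u = (fderiv ℝ T (γ u)).comp (fderiv ℝ γ u) := fun u =>
    fderiv_comp u (hTdiff _ (hmemU u)) (hγdiff u)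
  have hpd : ∀ u b, pd (T ∘ γ) u b = fderiv ℝ T (γ u) (pd γ u b) := by
    intro u b
    rw [pd, hfd]
    rfl
  refine ⟨⟨?_, ?_, ?_, ?_⟩, hpd, ?_⟩
  · exact hC.smoothT.comp_contDiff hγ.smooth hmemU
  · haveI : CompactSpace M := isCompact_iff_compactSpace.1 hMc
    have h1 : Topology.IsClosedEmbedding (M.restrict T) :=
      (continuousOn_iff_continuous_restrict.1 hTcont).isClosedEmbedding
        (injOn_iff_injective.1 (hTinj.mono hMU))
    have h2 : Topology.IsEmbedding (M.codRestrict γ hmem) := hγ.embedding.codRestrict M hmem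
    exact h1.isEmbedding.comp h2
  · intro u
    rw [hfd]
    have h1 : Function.Injective (fderiv ℝ T (γ u)) := by
      rw [injective_iff_map_eq_zero]
      intro v hv
      have h := hC2 n T ρ U hC (γ u) (hmemU u) v v
      rw [hv, inner_zero_left] at h
      have h3 := (mul_eq_zero.1 h.symm).resolve_left (pow_ne_zero 2 (hC.pos _ (hmemU u)).ne')
      exact inner_self_eq_zero.1 h3
    exact h1.comp (hγ.immersion u)
  · obtain ⟨V, hVo, hV⟩ := hγ.open_range
    refine ⟨(T '' (M \ V))ᶜ, ?_, ?_⟩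
    · have hc : IsCompact (M \ V) := hMc.diff hVo
      exact (hc.image_of_continuousOn (hTcont.mono diff_subset)).isClosed.isOpen_compl
    · rw [range_comp, hV]
      ext y
      constructor
      · rintro ⟨x, ⟨hxM, hxV⟩, rfl⟩
        refine ⟨⟨x, hxM, rfl⟩, ?_⟩
        rintro ⟨x', ⟨hx'M, hx'V⟩, he⟩
        have := hTinj (hMU hx'M) (hMU hxM) he
        exact hx'V (this ▸ hxV)
      · rintro ⟨⟨x, hxM, rfl⟩, hy⟩
        by_cases hxV : x ∈ V
        · exact ⟨x, ⟨hxM, hxV⟩, rfl⟩
        · exact absurd ⟨x, ⟨hxM, hxV⟩, rfl⟩ hy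
  · intro u
    have hρ : 0 < ρ (γ u) := hC.pos _ (hmemU u)
    have h1 : pairing (pd (T ∘ γ) u) (pd (T ∘ γ) u) =
        (ρ (γ u) ^ m) ^ 2 * pairing (pd γ u) (pd γ u) := by
      unfold pairing
      have : (Matrix.of fun i j => inner ℝ (pd (T ∘ γ) u i) (pd (T ∘ γ) u j)) =
          (ρ (γ u) ^ 2) • Matrix.of fun i j => inner ℝ (pd γ u i) (pd γ u j) := by
        ext i j
        simp only [Matrix.of_apply, Matrix.smul_apply, smul_eq_mul]
        rw [hpd, hpd, hC2 n T ρ U hC (γ u) (hmemU u)]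
      rw [this, Matrix.det_smul, Fintype.card_fin, ← pow_mul, ← pow_mul, mul_comm 2 m]
    unfold jac
    rw [h1, Real.sqrt_mul (by positivity), Real.sqrt_sq (by positivity)]

end Pool.Agent.K3h68.MI
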